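import Pool.Agent.V11109.Free.Pure
import Pool.Agent.V11109.Free.Exist

/-!
# Reduced free products of two algebras
-/

set_option autoImplicit false
set_option linter.style.haveILetI false
set_option linter.unusedSectionVars false

open scoped ComplexOrder InnerProductSpace

namespace Pool.Agent.V11109.Free

/-- The value of a letter from `A` or `B`. -/
def letter {A B E : Type} [CStarAlgebra A] [CStarAlgebra B] [CStarAlgebra E] (i : A →⋆ₐ[ℂ] E)
    (j : B →⋆ₐ[ℂ] E) : A ⊕ B → E
  | Sum.inl a => i a
  | Sum.inr b => j b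

/-- `(E, θ)` with the embeddings `i : A → E` and `j : B → E` is the reduced free product (Avitzour,
Voiculescu) of `(A, φ)` and `(B, ψ)`: `θ` is a state which restricts to `φ` on `A` and to `ψ` on
`B`, the two algebras are free with respect to `θ` (alternating products of centred elements have
expectation zero), they generate `E` as a C*-algebra, and the GNS representation of `θ` is
faithful. -/
structure IsReducedFreeProd₂ {A B : Type} [CStarAlgebra A] [CStarAlgebra B] (φ : A →ₗ[ℂ] ℂ)
    (ψ : B →ₗ[ℂ] ℂ) {E : Type} [CStarAlgebra E] (θ : E →ₗ[ℂ] ℂ) (i : A →⋆ₐ[ℂ] E)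
    (j : B →⋆ₐ[ℂ] E) : Prop where
  state : IsState θ
  left : ∀ a, θ (i a) = φ a
  right : ∀ b, θ (j b) = ψ b
  free : ∀ w : List (A ⊕ B), w ≠ [] → w.IsChain (fun x y => x.isLeft ≠ y.isLeft) →
    (∀ z ∈ w, Sum.elim φ ψ z = 0) → θ ((w.map (letter i j)).prod) = 0
  generating : (StarAlgebra.adjoin ℂ (Set.range i ∪ Set.range j)).topologicalClosure =
    (⊤ : StarSubalgebra ℂ E)
  gns_faithful : ∀ a, (∀ x, θ (star (a * x) * (a * x)) = 0) → a = 0

section Conv

variable (A B : Type) [instA : CStarAlgebra A] [instB : CStarAlgebra B]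

/-- the family of two algebras -/
def DD : Bool → Type
  | true => A
  | false => B

noncomputable instance instDD : ∀ b, CStarAlgebra (DD A B b)
  | true => instA
  | false => instB

variable {A B}

/-- the family of two functionals -/
def tt2 (φ : A →ₗ[ℂ] ℂ) (ψ : B →ₗ[ℂ] ℂ) : ∀ b, DD A B b →ₗ[ℂ] ℂ
  | true => φ
  | false => ψ

variable {E : Type} [CStarAlgebra E]

/-- the family of two embeddings -/
def ee2 (i : A →⋆ₐ[ℂ] E) (j : B →⋆ₐ[ℂ] E) : ∀ b, DD A B b →⋆ₐ[ℂ] E
  | true => i
  | false => j

/-- letters of the disjoint union -/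
def toSum : (Σ b, DD A B b) → A ⊕ B
  | ⟨true, a⟩ => Sum.inl a
  | ⟨false, b⟩ => Sum.inr b

/-- converse -/
def ofSum : A ⊕ B → (Σ b, DD A B b)
  | Sum.inl a => ⟨true, a⟩
  | Sum.inr b => ⟨false, b⟩

lemma range_eq (i : A →⋆ₐ[ℂ] E) (j : B →⋆ₐ[ℂ] E) :
    (⋃ b, Set.range (ee2 i j b)) = Set.range i ∪ Set.range j := by
  ext x
  constructor
  · intro hx
    obtain ⟨b, hb⟩ := Set.mem_iUnion.mp hx
    cases b with
    | true => exact Or.inl hb
    | false => exact Or.inr hb
  · rintro (hx | hx)
    · exact Set.mem_iUnion.mpr ⟨true, hx⟩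
    · exact Set.mem_iUnion.mpr ⟨false, hx⟩

variable {φ : A →ₗ[ℂ] ℂ} {ψ : B →ₗ[ℂ] ℂ} {θ : E →ₗ[ℂ] ℂ} {i : A →⋆ₐ[ℂ] E} {j : B →⋆ₐ[ℂ] E}

theorem IsReducedFreeProd₂.toFamily (h : IsReducedFreeProd₂ φ ψ θ i j) :
    IsReducedFreeProd (DD A B) (tt2 φ ψ) θ (ee2 i j) where
  state := h.state
  marginal := by
    rintro (_ | _) x
    · exact h.right x
    · exact h.left x
  free := by
    intro w hw hc hz
    have := h.free (w.map toSum) (by simpa using hw)
      (by
        rw [List.isChain_map]
        refine hc.imp ?_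
        rintro ⟨(_ | _), x⟩ ⟨(_ | _), y⟩ hxy
        · exact absurd rfl hxy
        · exact Bool.false_ne_true
        · exact Bool.false_ne_true.symm
        · exact absurd rfl hxy)
      (by
        intro z hz'
        obtain ⟨⟨(_ | _), y⟩, hy, rfl⟩ := List.mem_map.1 hz'
        · exact hz _ hy
        · exact hz _ hy)
    rw [List.map_map] at this
    rw [← this]
    congr 2
    refine List.map_congr_left ?_
    rintro ⟨(_ | _), y⟩ _ <;> rfl
  generating := by rw [range_eq]; exact h.generating
  gns_faithful := h.gns_faithful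

theorem IsReducedFreeProd.toTwo {e : ∀ b, DD A B b →⋆ₐ[ℂ] E}
    (h : IsReducedFreeProd (DD A B) (tt2 φ ψ) θ e) :
    IsReducedFreeProd₂ φ ψ θ (e true) (e false) where
  state := h.state
  left := fun a => h.marginal true a
  right := fun b => h.marginal false b
  free := by
    intro w hw hc hz
    have := h.free (w.map ofSum) (by simpa using hw)
      (by
        rw [List.isChain_map]
        refine hc.imp ?_
        rintro (x | x) (y | y) hxy
        · exact absurd rfl hxy
        · exact Bool.false_ne_true.symm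
        · exact Bool.false_ne_true
        · exact absurd rfl hxy)
      (by
        intro z hz'
        obtain ⟨(y | y), hy, rfl⟩ := List.mem_map.1 hz'
        · exact hz _ hy
        · exact hz _ hy)
    rw [List.map_map] at this
    rw [← this]
    congr 2
    refine List.map_congr_left ?_
    rintro (y | y) _ <;> rfl
  generating := by
    have h1 : (⋃ b, Set.range (e b)) = Set.range (e true) ∪ Set.range (e false) := by
      ext x
      constructor
      · intro hx
        obtain ⟨b, hb⟩ := Set.mem_iUnion.mp hx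
        cases b with
        | true => exact Or.inl hb
        | false => exact Or.inr hb
      · rintro (hx | hx)
        · exact Set.mem_iUnion.mpr ⟨true, hx⟩
        · exact Set.mem_iUnion.mpr ⟨false, hx⟩
    have h2 := h.generating
    rw [h1] at h2
    exact h2
  gns_faithful := h.gns_faithful

/-- existence of the reduced free product of two algebras -/
theorem exists_rfp₂ (hφ : IsState φ) (hψ : IsState ψ) :
    ∃ (E : Type) (_ : CStarAlgebra E) (θ : E →ₗ[ℂ] ℂ) (i : A →⋆ₐ[ℂ] E) (j : B →⋆ₐ[ℂ] E),
      IsReducedFreeProd₂ φ ψ θ i j := by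
  obtain ⟨E, inst, θ, e, h⟩ := exists_rfp (DD A B) (tt2 φ ψ) (by
    rintro (_ | _)
    · exact hψ
    · exact hφ)
  exact ⟨E, inst, θ, e true, e false, h.toTwo⟩

theorem centralizer_two (h : IsReducedFreeProd₂ φ ψ θ i j) {a : A} (ha : InCentralizer φ a) :
    InCentralizer θ (i a) :=
  centralizer_free h.toFamily (j := true) ha

end Conv

end Pool.Agent.V11109.Free
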