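import Pool.Agent.V11109.Free.Hilb
import Pool.Agent.V11109.Free.Two

/-!
# Powers averaging in reduced free products
-/

set_option autoImplicit false
set_option linter.style.haveILetI false
set_option linter.unusedSectionVars false

open scoped ComplexOrder InnerProductSpace

namespace Pool.Agent.V11109.Free

section

variable {J : Type} {D : J → Type} [∀ j, CStarAlgebra (D j)]
  {t : ∀ j, D j →ₗ[ℂ] ℂ} {A : Type} [CStarAlgebra A] {φ : A →ₗ[ℂ] ℂ}
  {e : ∀ j, D j →⋆ₐ[ℂ] A} (h : IsReducedFreeProd D t φ e)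

include h

/-- averaging over unitaries of a free factor -/
theorem powers_avg {i j : J} (hij : i ≠ j) {κ : Type} (s : Finset κ) (v : κ → D i)
    (hv : ∀ m, star (v m) * v m = 1) (hv' : ∀ m, v m * star (v m) = 1)
    (hort : ∀ m l, m ≠ l → t i (star (v m) * v l) = 0) {a : D j} (ha : t j a = 0) :
    ‖∑ m ∈ s, e i (v m) * e j a * star (e i (v m))‖ ≤ 2 * Real.sqrt s.card * ‖e j a‖ := by
  obtain ⟨H, _, _, _, π, Ω, hg⟩ := exists_GNS h.state
  have key : ∀ b : A, ‖π b‖ = ‖b‖ := hg.norm_map h
  rw [← key, ← key (e j a)]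
  -- the translated subspaces
  let L : κ → Submodule ℂ H := fun m =>
    (KK t e π Ω j).comap ((π (star (e i (v m))) : H →L[ℂ] H) : H →ₗ[ℂ] H)
  have hLc : ∀ m, IsClosed (L m : Set H) := fun m =>
    (Submodule.isClosed_topologicalClosure _).preimage (π (star (e i (v m)))).continuous
  have hLp : ∀ m, (L m).HasOrthogonalProjection := fun m => by
    haveI : CompleteSpace (L m) := (hLc m).completeSpace_coe
    infer_instance
  have hadj : ∀ (b : A) (ξ η : H), ⟪π b ξ, η⟫_ℂ = ⟪ξ, π (star b) η⟫_ℂ := by
    intro b ξ η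
    rw [map_star, ContinuousLinearMap.star_eq_adjoint, ContinuousLinearMap.adjoint_inner_right]
  have hUU : ∀ m (ξ : H), π (e i (v m)) (π (star (e i (v m))) ξ) = ξ := by
    intro m ξ
    rw [← mul_apply_eq_comp, ← map_mul, ← map_star, ← map_mul, hv', map_one, map_one,
      one_apply_eq_self]
  have hUU' : ∀ m (ξ : H), π (star (e i (v m))) (π (e i (v m)) ξ) = ξ := by
    intro m ξ
    rw [← mul_apply_eq_comp, ← map_mul, ← map_star, ← map_mul, hv, map_one, map_one,
      one_apply_eq_self]
  have hL : ∀ m l, m ≠ l → L m ⟂ L l := by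
    intro m l hml
    rw [Submodule.isOrtho_iff_inner_eq]
    intro ξ hξ η hη
    have e1 : ⟪ξ, η⟫_ℂ = ⟪π (star (e i (v m))) ξ, π (e i (star (v m) * v l))
        (π (star (e i (v l))) η)⟫_ℂ := by
      rw [hadj, star_star, ← mul_apply_eq_comp, ← map_mul]
      have e2 : π (e i (v m) * e i (star (v m) * v l)) (π (star (e i (v l))) η) = η := by
        rw [← map_mul, ← mul_assoc, hv', one_mul, hUU]
      rw [e2]
    rw [e1]
    have e3 : π (star (e i (v l))) η ∈ (KK t e π Ω i)ᗮ := by
      have e4 : KK t e π Ω j ≤ (KK t e π Ω i)ᗮ :=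
        Submodule.isOrtho_iff_le.mp (KK_ortho h hg hij.symm)
      exact e4 hη
    have e5 := ortho_map h hg (hort m l hml) e3
    exact Submodule.isOrtho_iff_inner_eq.mp (KK_ortho h hg hij.symm) _ hξ _ e5
  refine ContinuousLinearMap.opNorm_le_bound _ (by positivity) fun ξ => ?_
  have h1 := powers hL s (fun m => π (e i (v m) * e j a * star (e i (v m))))
    (M := ‖π (e j a)‖) (fun m => ?_) (fun m η hη => ?_) ξ
  · rw [map_sum, ContinuousLinearMap.sum_apply]
    exact h1
  · rw [key, key]
    have e6 : ‖e i (v m)‖ ≤ 1 := by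
      have h7 := CStarRing.norm_star_mul_self (x := e i (v m))
      rw [← map_star, ← map_mul, hv, map_one] at h7
      rcases subsingleton_or_nontrivial A with h8 | h8
      · rw [Subsingleton.elim (e i (v m)) 0]; simp
      · rw [CStarRing.norm_one] at h7
        nlinarith [norm_nonneg (e i (v m))]
    calc ‖e i (v m) * e j a * star (e i (v m))‖
        ≤ ‖e i (v m)‖ * ‖e j a‖ * ‖star (e i (v m))‖ :=
          (norm_mul_le _ _).trans (by gcongr; exact norm_mul_le _ _)
      _ ≤ 1 * ‖e j a‖ * 1 := by rw [norm_star]; gcongr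
      _ = ‖e j a‖ := by ring
  · have e7 : π (star (e i (v m))) η ∈ (KK t e π Ω j)ᗮ := by
      rw [Submodule.mem_orthogonal]
      intro ζ hζ
      rw [← hadj]
      apply (Submodule.mem_orthogonal _ _).mp hη
      show π (star (e i (v m))) (π (e i (v m)) ζ) ∈ KK t e π Ω j
      rw [hUU']
      exact hζ
    show π (star (e i (v m))) (π (e i (v m) * e j a * star (e i (v m))) η) ∈ KK t e π Ω j
    have e8 : π (star (e i (v m))) (π (e i (v m) * e j a * star (e i (v m))) η)
        = π (e j a) (π (star (e i (v m))) η) := by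
      rw [map_mul, map_mul, mul_apply_eq_comp, mul_apply_eq_comp, hUU']
    rw [e8]
    exact ortho_map h hg ha e7

/-- a character of the reduced free product is the state on a factor which is free from a Haar
unitary -/
theorem character_eq {i j : J} (hij : i ≠ j) (v : ℕ → D i)
    (hv : ∀ m, star (v m) * v m = 1) (hv' : ∀ m, v m * star (v m) = 1)
    (hort : ∀ m l, m ≠ l → t i (star (v m) * v l) = 0) (χ : A →⋆ₐ[ℂ] ℂ) (a : D j) :
    χ (e j a) = t j a := by
  have h0 : χ (e j (ctr t j a)) = 0 := by
    have hb : ∀ n : ℕ, 0 < n → ‖χ (e j (ctr t j a))‖ ≤ 2 / Real.sqrt n * ‖e j (ctr t j a)‖ := by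
      intro n hn
      have h1 := powers_avg h hij (Finset.range n) v hv hv' hort (t_ctr (t_state h) j a)
      have h2 : χ (∑ m ∈ Finset.range n, e i (v m) * e j (ctr t j a) * star (e i (v m)))
          = n * χ (e j (ctr t j a)) := by
        rw [map_sum]
        have h3 : ∀ m ∈ Finset.range n, χ (e i (v m) * e j (ctr t j a) * star (e i (v m)))
            = χ (e j (ctr t j a)) := by
          intro m _
          rw [map_mul, map_mul]
          have h4 : χ (e i (v m)) * χ (star (e i (v m))) = 1 := by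
            rw [← map_mul, ← map_star, ← map_mul, hv', map_one, map_one]
          calc χ (e i (v m)) * χ (e j (ctr t j a)) * χ (star (e i (v m)))
              = (χ (e i (v m)) * χ (star (e i (v m)))) * χ (e j (ctr t j a)) := by ring
            _ = _ := by rw [h4, one_mul]
        rw [Finset.sum_congr rfl h3, Finset.sum_const, Finset.card_range, nsmul_eq_mul]
      have h5 : ‖χ (∑ m ∈ Finset.range n, e i (v m) * e j (ctr t j a) * star (e i (v m)))‖
          ≤ 2 * Real.sqrt n * ‖e j (ctr t j a)‖ := by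
        have h6 : ∀ b : A, ‖χ b‖ ≤ ‖b‖ := fun b => NonUnitalStarAlgHom.norm_apply_le χ b
        refine (h6 _).trans ?_
        rwa [Finset.card_range] at h1
      rw [h2, norm_mul, Complex.norm_natCast] at h5
      have hn' : (0 : ℝ) < n := by exact_mod_cast hn
      have hsn : Real.sqrt n * Real.sqrt n = n := Real.mul_self_sqrt hn'.le
      have hsp : 0 < Real.sqrt n := Real.sqrt_pos.mpr hn'
      rw [div_mul_eq_mul_div, le_div_iff₀ hsp]
      have h7 : (‖χ (e j (ctr t j a))‖ * Real.sqrt n) * Real.sqrt n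
          ≤ (2 * ‖e j (ctr t j a)‖) * Real.sqrt n := by
        calc (‖χ (e j (ctr t j a))‖ * Real.sqrt n) * Real.sqrt n
            = n * ‖χ (e j (ctr t j a))‖ := by rw [mul_assoc, hsn]; ring
          _ ≤ 2 * Real.sqrt n * ‖e j (ctr t j a)‖ := h5
          _ = _ := by ring
      exact le_of_mul_le_mul_right h7 hsp
    have hlim : Filter.Tendsto (fun n : ℕ => 2 / Real.sqrt n * ‖e j (ctr t j a)‖) Filter.atTop
        (nhds 0) := by
      have h1 : Filter.Tendsto (fun n : ℕ => Real.sqrt n) Filter.atTop Filter.atTop :=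
        Real.tendsto_sqrt_atTop.comp tendsto_natCast_atTop_atTop
      have h2 := (tendsto_const_nhds (x := (2 : ℝ))).div_atTop h1
      have h3 := h2.mul_const ‖e j (ctr t j a)‖
      rwa [zero_mul] at h3
    have h1 : ‖χ (e j (ctr t j a))‖ ≤ 0 := by
      refine ge_of_tendsto hlim ?_
      filter_upwards [Filter.eventually_gt_atTop 0] with n hn
      exact hb n hn
    simpa using h1
  rw [e_ctr (t := t) j a, map_add, h0, add_zero, map_smul, map_one, smul_eq_mul, mul_one]

end

end Pool.Agent.V11109.Free
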