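import Pool.Agent.V11109.Free.Two

/-!
# The Lebesgue state on `C([0,1])`
-/

set_option autoImplicit false

open scoped ComplexOrder InnerProductSpace
open MeasureTheory

namespace Pool.Agent.V11109.Free

lemma integrable_cont (f : C(unitInterval, ℂ)) : Integrable (fun x : unitInterval => f x) :=
  f.continuous.integrable_of_hasCompactSupport
    (HasCompactSupport.of_compactSpace _)

/-- The Lebesgue state `f ↦ ∫₀¹ f` on `C([0,1])`. -/
noncomputable def lebL : C(unitInterval, ℂ) →ₗ[ℂ] ℂ where
  toFun f := ∫ x : unitInterval, f x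
  map_add' f g := integral_add (integrable_cont f) (integrable_cont g)
  map_smul' c f := integral_const_mul c _

lemma lebL_apply (f : C(unitInterval, ℂ)) : lebL f = ∫ x : unitInterval, f x := rfl

lemma lebL_state : IsState lebL where
  one := by
    rw [lebL_apply]
    simp
  pos f := by
    rw [lebL_apply]
    have h1 : ∀ x : unitInterval, (star f * f) x = ((‖f x‖ ^ 2 : ℝ) : ℂ) := by
      intro x
      show star (f x) * f x = _
      rw [Complex.star_def, Complex.conj_mul']
      push_cast
      rfl
    simp only [h1]
    rw [integral_complex_ofReal]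
    exact Complex.zero_le_real.mpr (integral_nonneg fun x => by positivity)

/-- the coordinate function -/
noncomputable def coordF : C(unitInterval, ℂ) where
  toFun x := ((x : ℝ) : ℂ)
  continuous_toFun := by fun_prop

lemma integral_coord (n : ℕ) : ∫ x : unitInterval, (((x : ℝ) : ℂ)) ^ n = 1 / (n + 1) := by
  have h1 : ∀ x : unitInterval, (((x : ℝ) : ℂ)) ^ n = (((x : ℝ) ^ n : ℝ) : ℂ) := by
    intro x; push_cast; rfl
  simp only [h1]
  rw [integral_complex_ofReal]
  have h2 : ∫ x : unitInterval, ((x : ℝ)) ^ n = ∫ x in Set.Icc (0 : ℝ) 1, x ^ n :=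
    integral_subtype_comap measurableSet_Icc (fun x : ℝ => x ^ n)
  rw [h2, integral_Icc_eq_integral_Ioc, ← intervalIntegral.integral_of_le zero_le_one,
    integral_pow]
  push_cast
  simp

lemma leb_coord_ne : lebL (star coordF * coordF) ≠ star (lebL coordF) * lebL coordF := by
  have h1 : lebL (star coordF * coordF) = 1 / 3 := by
    rw [lebL_apply]
    have h2 : ∀ x : unitInterval, (star coordF * coordF) x = (((x : ℝ) : ℂ)) ^ 2 := by
      intro x
      show star (((x : ℝ) : ℂ)) * ((x : ℝ) : ℂ) = _
      rw [Complex.star_def, Complex.conj_ofReal, sq]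
    simp only [h2]
    rw [integral_coord 2]
    norm_num
  have h2 : lebL coordF = 1 / 2 := by
    rw [lebL_apply]
    have h2 : ∀ x : unitInterval, coordF x = (((x : ℝ) : ℂ)) ^ 1 := by
      intro x
      rw [pow_one]
      rfl
    simp only [h2]
    rw [integral_coord 1]
    norm_num
  rw [h1, h2]
  norm_num

end Pool.Agent.V11109.Free
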