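import Pool.Agent.V11109.Free.Words
import Pool.Agent.V11109.Free.Exist

/-!
# Hilbert space estimates for free families
-/

set_option autoImplicit false
set_option linter.style.haveILetI false
set_option linter.unusedSectionVars false

open scoped ComplexOrder InnerProductSpace

namespace Pool.Agent.V11109.Free

section Powers

variable {H : Type*} [NormedAddCommGroup H] [InnerProductSpace ℂ H] [CompleteSpace H]
variable {ι : Type*} {K : ι → Submodule ℂ H} [∀ i, (K i).HasOrthogonalProjection]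
  (hK : ∀ i j, i ≠ j → K i ⟂ K j)

include hK

lemma norm_sum_sq (s : Finset ι) (v : ι → H) (hv : ∀ i, v i ∈ K i) :
    ‖∑ i ∈ s, v i‖ ^ 2 = ∑ i ∈ s, ‖v i‖ ^ 2 := by
  classical
  induction s using Finset.induction_on with
  | empty => simp
  | insert a s ha ih =>
    rw [Finset.sum_insert ha, Finset.sum_insert ha, ← ih]
    have h1 : ⟪v a, ∑ i ∈ s, v i⟫_ℂ = 0 := by
      rw [inner_sum]
      refine Finset.sum_eq_zero fun i hi => ?_
      have hne : a ≠ i := fun h => ha (h ▸ hi)
      exact (Submodule.isOrtho_iff_inner_eq.mp (hK a i hne)) _ (hv a) _ (hv i)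
    have h2 := norm_add_sq_eq_norm_sq_add_norm_sq_of_inner_eq_zero (v a) (∑ i ∈ s, v i) h1
    rw [sq, sq, sq]
    exact h2

lemma bessel (s : Finset ι) (ξ : H) :
    ∑ i ∈ s, ‖(K i).starProjection ξ‖ ^ 2 ≤ ‖ξ‖ ^ 2 := by
  set η : H := ∑ i ∈ s, (K i).starProjection ξ with hη
  have h1 : ‖η‖ ^ 2 = ∑ i ∈ s, ‖(K i).starProjection ξ‖ ^ 2 :=
    norm_sum_sq hK s _ (fun i => Submodule.starProjection_apply_mem _ _)
  have h2 : RCLike.re ⟪ξ, η⟫_ℂ = ‖η‖ ^ 2 := by
    rw [h1, hη, inner_sum, map_sum]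
    refine Finset.sum_congr rfl fun i _ => ?_
    have h3 : ⟪ξ, (K i).starProjection ξ⟫_ℂ
        = ⟪(K i).starProjection ξ, (K i).starProjection ξ⟫_ℂ := by
      have h4 := Submodule.starProjection_inner_eq_zero (K := K i) ξ ((K i).starProjection ξ)
        (Submodule.starProjection_apply_mem _ _)
      rw [inner_sub_left, sub_eq_zero] at h4
      exact h4
    rw [h3, inner_self_eq_norm_sq_to_K, ← RCLike.ofReal_pow]
    exact RCLike.ofReal_re _
  rw [← h1]
  have h3 : ‖η‖ ^ 2 ≤ ‖ξ‖ * ‖η‖ := by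
    rw [← h2]
    exact re_inner_le_norm _ _
  by_cases h4 : ‖η‖ = 0
  · rw [h4]
    nlinarith [sq_nonneg ‖ξ‖]
  · have h5 : 0 < ‖η‖ := lt_of_le_of_ne (norm_nonneg _) (Ne.symm h4)
    have h6 : ‖η‖ ≤ ‖ξ‖ := by
      rw [sq] at h3
      exact le_of_mul_le_mul_right h3 h5
    gcongr

/-- Powers' estimate -/
theorem powers (s : Finset ι) (T : ι → H →L[ℂ] H) {M : ℝ} (hM : ∀ i, ‖T i‖ ≤ M)
    (hT : ∀ i, ∀ ξ ∈ (K i)ᗮ, T i ξ ∈ K i) (ξ : H) :
    ‖∑ i ∈ s, T i ξ‖ ≤ 2 * Real.sqrt s.card * M * ‖ξ‖ := by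
  classical
  by_cases hs : s = ∅
  · subst hs; simp
  obtain ⟨i₀, hi₀⟩ := Finset.nonempty_iff_ne_empty.mpr hs
  have hM0 : 0 ≤ M := (norm_nonneg _).trans (hM i₀)
  have h0 : ∀ i, T i ξ = T i ((K i).starProjection ξ) + T i (ξ - (K i).starProjection ξ) := by
    intro i
    rw [← map_add, add_sub_cancel]
  have h1 : ‖∑ i ∈ s, T i ((K i).starProjection ξ)‖ ≤ Real.sqrt s.card * M * ‖ξ‖ := by
    calc ‖∑ i ∈ s, T i ((K i).starProjection ξ)‖
        ≤ ∑ i ∈ s, ‖T i ((K i).starProjection ξ)‖ := norm_sum_le _ _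
      _ ≤ ∑ i ∈ s, M * ‖(K i).starProjection ξ‖ := Finset.sum_le_sum fun i _ =>
          ((T i).le_opNorm _).trans (by gcongr; exact hM i)
      _ = M * ∑ i ∈ s, 1 * ‖(K i).starProjection ξ‖ := by rw [← Finset.mul_sum]; simp
      _ ≤ M * (Real.sqrt (∑ i ∈ s, (1 : ℝ) ^ 2) *
            Real.sqrt (∑ i ∈ s, ‖(K i).starProjection ξ‖ ^ 2)) := by
          gcongr
          exact Real.sum_mul_le_sqrt_mul_sqrt s _ _
      _ ≤ M * (Real.sqrt s.card * ‖ξ‖) := by
          gcongr
          · simp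
          · rw [← Real.sqrt_sq (norm_nonneg ξ)]
            exact Real.sqrt_le_sqrt (bessel hK s ξ)
      _ = Real.sqrt s.card * M * ‖ξ‖ := by ring
  have h2 : ‖∑ i ∈ s, T i (ξ - (K i).starProjection ξ)‖ ≤ Real.sqrt s.card * M * ‖ξ‖ := by
    have h3 : ‖∑ i ∈ s, T i (ξ - (K i).starProjection ξ)‖ ^ 2 ≤ s.card * (M * ‖ξ‖) ^ 2 := by
      rw [norm_sum_sq hK s _ (fun i => hT i _ (Submodule.sub_starProjection_mem_orthogonal _))]
      calc ∑ i ∈ s, ‖T i (ξ - (K i).starProjection ξ)‖ ^ 2
          ≤ ∑ i ∈ s, (M * ‖ξ‖) ^ 2 := by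
            refine Finset.sum_le_sum fun i _ => ?_
            gcongr
            refine ((T i).le_opNorm _).trans ?_
            gcongr
            · exact hM i
            · have h4 := (K i).norm_sq_eq_add_norm_sq_starProjection ξ
              rw [Submodule.starProjection_orthogonal_val] at h4
              have h5 : ‖ξ - (K i).starProjection ξ‖ ^ 2 ≤ ‖ξ‖ ^ 2 := by
                have := sq_nonneg ‖(K i).starProjection ξ‖
                linarith
              exact abs_le_of_sq_le_sq' h5 (norm_nonneg _) |>.2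
        _ = s.card * (M * ‖ξ‖) ^ 2 := by rw [Finset.sum_const, nsmul_eq_mul]
    have h4 : (Real.sqrt s.card * M * ‖ξ‖) ^ 2 = s.card * (M * ‖ξ‖) ^ 2 := by
      rw [mul_assoc, mul_pow, Real.sq_sqrt (Nat.cast_nonneg _)]
    rw [← h4] at h3
    exact abs_le_of_sq_le_sq' h3 (by positivity) |>.2
  calc ‖∑ i ∈ s, T i ξ‖ = ‖∑ i ∈ s, T i ((K i).starProjection ξ) +
        ∑ i ∈ s, T i (ξ - (K i).starProjection ξ)‖ := by
          rw [← Finset.sum_add_distrib]
          congr 1
          exact Finset.sum_congr rfl fun i _ => h0 i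
    _ ≤ _ := (norm_add_le _ _).trans (add_le_add h1 h2)
    _ = 2 * Real.sqrt s.card * M * ‖ξ‖ := by ring

end Powers

section GNS

variable {J : Type} {D : J → Type} [∀ j, CStarAlgebra (D j)]
  {t : ∀ j, D j →ₗ[ℂ] ℂ} {A : Type} [CStarAlgebra A] {φ : A →ₗ[ℂ] ℂ}
  {e : ∀ j, D j →⋆ₐ[ℂ] A} (h : IsReducedFreeProd D t φ e)

/-- the first letter of `w` is from `j` -/
def Head (j : J) (w : List (Σ j, D j)) : Prop := ∃ z ∈ w.head?, z.1 = j

lemma Head.notHead {i j : J} (hij : i ≠ j) {w : List (Σ j, D j)} (hw : Head i w) :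
    NotHead j w := by
  obtain ⟨z, hz, rfl⟩ := hw
  intro y hy
  rw [Option.mem_def] at hz hy
  rw [hz, Option.some.injEq] at hy
  subst hy
  exact hij

lemma head_or_notHead (j : J) (w : List (Σ j, D j)) : Head j w ∨ NotHead j w := by
  by_cases hw : Head j w
  · exact Or.inl hw
  · right
    intro z hz hj
    exact hw ⟨z, hz, hj⟩

include h in
lemma phi_star_mul {j : J} {v w : List (Σ j, D j)} (hv : Red t v) (hw : Red t w)
    (hvj : Head j v) (hwj : NotHead j w) : φ (star (ev e v) * ev e w) = 0 := by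
  rw [star_ev, ← ev_append]
  obtain ⟨z, hz, rfl⟩ := hvj
  cases v with
  | nil => simp at hz
  | cons y v =>
    simp only [List.head?_cons, Option.mem_def, Option.some.injEq] at hz
    subst hz
    refine phi_ev h ⟨?_, ?_⟩ (by simp [sw])
    · rw [List.isChain_append]
      refine ⟨(hv.sw (t_state h)).1, hw.1, ?_⟩
      intro x hx x' hx'
      rw [Free.sw, List.getLast?_reverse] at hx
      simp only [List.map_cons, List.head?_cons, Option.mem_def, Option.some.injEq] at hx
      subst hx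
      exact fun h' => hwj x' hx' h'.symm
    · intro x hx
      rcases List.mem_append.mp hx with hx | hx
      · exact (hv.sw (t_state h)).2 x hx
      · exact hw.2 x hx

/-- a GNS representation of the free product state -/
structure GNS (φ : A →ₗ[ℂ] ℂ) {H : Type} [NormedAddCommGroup H] [InnerProductSpace ℂ H]
    [CompleteSpace H] (π : A →⋆ₐ[ℂ] (H →L[ℂ] H)) (Ω : H) : Prop where
  val : ∀ a, ⟪Ω, π a Ω⟫_ℂ = φ a
  cyc : ∀ ξ, (∀ a, ⟪ξ, π a Ω⟫_ℂ = 0) → ξ = 0

omit h in
lemma exists_GNS (hφ : IsState φ) : ∃ (H : Type) (_ : NormedAddCommGroup H)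
    (_ : InnerProductSpace ℂ H) (_ : CompleteSpace H) (π : A →⋆ₐ[ℂ] (H →L[ℂ] H)) (Ω : H),
    GNS φ π Ω := by
  obtain ⟨I, lam, h1, h2⟩ := exists_gns A φ hφ
  exact ⟨_, inferInstance, inferInstance, inferInstance, lam, _, h1, h2⟩

variable {H : Type} [NormedAddCommGroup H] [InnerProductSpace ℂ H]
    [CompleteSpace H] {π : A →⋆ₐ[ℂ] (H →L[ℂ] H)} {Ω : H} (hg : GNS φ π Ω)

include hg

lemma GNS.inner (a b : A) : ⟪π a Ω, π b Ω⟫_ℂ = φ (star a * b) := by
  rw [← hg.val, map_mul, map_star, ContinuousLinearMap.star_eq_adjoint]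
  exact (ContinuousLinearMap.adjoint_inner_right (π a) Ω (π b Ω)).symm

lemma GNS.norm (hφ : IsState φ) (a : A) : ‖π a Ω‖ = nn φ a := by
  have h1 : ((‖π a Ω‖ ^ 2 : ℝ) : ℂ) = ((nn φ a ^ 2 : ℝ) : ℂ) := by
    rw [nn_sq' hφ.pos, ← hg.inner, inner_self_eq_norm_sq_to_K]
    push_cast
    rfl
  have h2 : ‖π a Ω‖ ^ 2 = nn φ a ^ 2 := by exact_mod_cast h1
  have h3 := nn_nonneg (φ := φ) a
  have h4 := norm_nonneg (π a Ω)
  nlinarith [sq_nonneg (‖π a Ω‖ - nn φ a), sq_nonneg (‖π a Ω‖ + nn φ a)]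

lemma GNS.dense : Dense (Set.range fun a => π a Ω) := by
  let S : Submodule ℂ H := LinearMap.range
    ({ toFun := fun a => π a Ω
       map_add' := fun a b => by rw [map_add, add_apply]
       map_smul' := fun c a => by rw [map_smul, smul_apply, RingHom.id_apply] } : A →ₗ[ℂ] H)
  have hS : Dense (S : Set H) := by
    rw [Submodule.dense_iff_topologicalClosure_eq_top,
      Submodule.topologicalClosure_eq_top_iff, Submodule.eq_bot_iff]
    intro ξ hξ
    apply hg.cyc
    intro a
    exact Submodule.inner_left_of_mem_orthogonal (K := S) ⟨a, rfl⟩ hξ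
  exact hS

include h in
lemma GNS.injective : Function.Injective π := by
  rw [injective_iff_map_eq_zero]
  intro a ha
  apply h.gns_faithful
  intro x
  rw [← hg.inner, map_mul, ha, zero_mul]
  simp

include h in
lemma GNS.norm_map (a : A) : ‖π a‖ = ‖a‖ :=
  NonUnitalStarAlgHom.norm_map (π : A →⋆ₙₐ[ℂ] (H →L[ℂ] H)) (hg.injective h) a

omit hg

/-- the closed span of the words which begin in `j` -/
noncomputable def KK (t : ∀ j, D j →ₗ[ℂ] ℂ) (e : ∀ j, D j →⋆ₐ[ℂ] A) (π : A →⋆ₐ[ℂ] (H →L[ℂ] H))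
    (Ω : H) (j : J) : Submodule ℂ H :=
  (Submodule.span ℂ {x | ∃ w, Red t w ∧ Head j w ∧ x = π (ev e w) Ω}).topologicalClosure

noncomputable instance (j : J) : (KK t e π Ω j).HasOrthogonalProjection := by
  haveI : CompleteSpace (KK t e π Ω j) :=
    (Submodule.isClosed_topologicalClosure _).completeSpace_coe
  infer_instance

lemma mem_KK {j : J} {w : List (Σ j, D j)} (hw : Red t w) (hj : Head j w) :
    π (ev e w) Ω ∈ KK t e π Ω j :=
  Submodule.le_topologicalClosure _ (Submodule.subset_span ⟨w, hw, hj, rfl⟩)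

/-- orthogonality can be checked on generators -/
lemma ortho_of_gen {S : Set H} {ξ : H} (hS : ∀ x ∈ S, ⟪x, ξ⟫_ℂ = 0) :
    ξ ∈ (Submodule.span ℂ S).topologicalClosureᗮ := by
  rw [Submodule.orthogonal_closure, Submodule.mem_orthogonal]
  intro x hx
  induction hx using Submodule.span_induction with
  | mem x hx => exact hS x hx
  | zero => simp
  | add x y _ _ h1 h2 => rw [inner_add_left, h1, h2, add_zero]
  | smul c x _ h1 => rw [inner_smul_left, h1, mul_zero]

include h hg in
lemma notHead_mem_ortho {j : J} {w : List (Σ j, D j)} (hw : Red t w) (hj : NotHead j w) :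
    π (ev e w) Ω ∈ (KK t e π Ω j)ᗮ := by
  apply ortho_of_gen
  rintro _ ⟨v, hv, hvj, rfl⟩
  rw [hg.inner]
  exact phi_star_mul h hv hw hvj hj

include h hg in
lemma KK_ortho {i j : J} (hij : i ≠ j) : KK t e π Ω i ⟂ KK t e π Ω j := by
  rw [Submodule.isOrtho_iff_le]
  apply Submodule.topologicalClosure_minimal _ _ (Submodule.isClosed_orthogonal _)
  rw [Submodule.span_le]
  rintro _ ⟨w, hw, hwi, rfl⟩
  exact notHead_mem_ortho h hg hw (hwi.notHead hij)

include h hg in
/-- each vector orthogonal to `K j` is a limit of combinations of words not beginning in `j` -/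
lemma ortho_approx {j : J} {ξ : H} (hξ : ξ ∈ (KK t e π Ω j)ᗮ) :
    ξ ∈ (Submodule.span ℂ {x | ∃ w, Red t w ∧ NotHead j w ∧
      x = π (ev e w) Ω}).topologicalClosure := by
  set L := (Submodule.span ℂ {x | ∃ w, Red t w ∧ NotHead j w ∧
      x = π (ev e w) Ω}).topologicalClosure with hL
  haveI : CompleteSpace L := (Submodule.isClosed_topologicalClosure _).completeSpace_coe
  -- the orthogonal part of `ξ` vanishes
  have h1 : ξ - L.starProjection ξ = 0 := by
    apply hg.cyc
    intro a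
    have hcont : Continuous fun a => ⟪ξ - L.starProjection ξ, π a Ω⟫_ℂ := by
      have hπ : Continuous fun a => π a Ω := by
        have h2 : Continuous π :=
          AddMonoidHomClass.continuous_of_bound π 1 (fun x => by
            rw [one_mul, hg.norm_map h])
        exact (ContinuousLinearMap.apply ℂ H Ω).continuous.comp h2
      exact continuous_const.inner hπ
    have hcl : IsClosed {a : A | ⟪ξ - L.starProjection ξ, π a Ω⟫_ℂ = 0} :=
      isClosed_eq hcont continuous_const
    refine hcl.closure_subset_iff.mpr ?_ (mem_closure_WS h a)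
    intro a ha
    have ha' : a ∈ WS t e := ha
    clear ha
    rw [WS] at ha'
    simp only [Set.mem_ofPred_eq]
    induction ha' using Submodule.span_induction with
    | mem a ha =>
      obtain ⟨w, hw, rfl⟩ := ha
      rcases head_or_notHead j w with hj | hj
      · -- orthogonal to `K j`
        have h3 : L.starProjection ξ ∈ (KK t e π Ω j)ᗮ := by
          have h4 : L ≤ (KK t e π Ω j)ᗮ := by
            apply Submodule.topologicalClosure_minimal _ _ (Submodule.isClosed_orthogonal _)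
            rw [Submodule.span_le]
            rintro _ ⟨v, hv, hvj, rfl⟩
            exact notHead_mem_ortho h hg hv hvj
          exact h4 (Submodule.starProjection_apply_mem _ _)
        exact Submodule.inner_left_of_mem_orthogonal (mem_KK hw hj)
          (Submodule.sub_mem _ hξ h3)
      · exact Submodule.starProjection_inner_eq_zero _ _
          (Submodule.le_topologicalClosure _ (Submodule.subset_span ⟨w, hw, hj, rfl⟩))
    | zero => simp
    | add x y _ _ h1 h2 => rw [map_add, add_apply, inner_add_right, h1, h2, add_zero]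
    | smul c x _ h1 => rw [map_smul, smul_apply, inner_smul_right, h1, mul_zero]
  rw [sub_eq_zero] at h1
  rw [h1]
  exact Submodule.starProjection_apply_mem _ _

include h hg in
/-- a centred element of `D j` maps the complement of `K j` to `K j` -/
lemma ortho_map {j : J} {d : D j} (hd : t j d = 0) {ξ : H} (hξ : ξ ∈ (KK t e π Ω j)ᗮ) :
    π (e j d) ξ ∈ KK t e π Ω j := by
  have h1 := ortho_approx h hg hξ
  have hcl : IsClosed {η : H | π (e j d) η ∈ KK t e π Ω j} :=
    (Submodule.isClosed_topologicalClosure _).preimage (π (e j d)).continuous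
  refine hcl.closure_subset_iff.mpr ?_ h1
  intro η hη
  have hη' : η ∈ Submodule.span ℂ {x | ∃ w, Red t w ∧ NotHead j w ∧ x = π (ev e w) Ω} := hη
  clear hη
  simp only [Set.mem_ofPred_eq]
  induction hη' using Submodule.span_induction with
  | mem x hx =>
    obtain ⟨w, hw, hj, rfl⟩ := hx
    rw [← mul_apply_eq_comp, ← map_mul, ← ev_cons (e := e) ⟨j, d⟩ w]
    exact mem_KK (hw.cons hd hj) ⟨_, rfl, rfl⟩
  | zero => rw [map_zero]; exact Submodule.zero_mem _
  | add x y _ _ h1 h2 => rw [map_add]; exact Submodule.add_mem _ h1 h2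
  | smul c x _ h1 => rw [map_smul]; exact Submodule.smul_mem _ _ h1

end GNS

end Pool.Agent.V11109.Free
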