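import Pool.Agent.V11109.Free.Words

/-!
# Free product states: pure-like states and centralizers
-/

set_option autoImplicit false
set_option linter.style.haveILetI false
set_option linter.unusedSectionVars false

open scoped ComplexOrder InnerProductSpace

namespace Pool.Agent.V11109.Free

section PL

variable {A : Type} [CStarAlgebra A]

/-- up to a scalar, each element is approximated in the seminorm of the state by elements `c` with
`φ(c c^*) = 0` (this is a reformulation of purity) -/
def PureLike (φ : A →ₗ[ℂ] ℂ) : Prop :=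
  ∀ (a : A) (ε : ℝ), 0 < ε → ∃ c : A, nn φ (star c) = 0 ∧ nn φ (a - φ a • 1 - c) < ε

/-- the centralizer of a functional -/
def InCentralizer (φ : A →ₗ[ℂ] ℂ) (b : A) : Prop := ∀ x, φ (b * x) = φ (x * b)

/-- elements which are approximable -/
def PLset (φ : A →ₗ[ℂ] ℂ) : Set A :=
  {a | ∀ ε : ℝ, 0 < ε → ∃ c : A, nn φ (star c) = 0 ∧ nn φ (a - φ a • 1 - c) < ε}

variable {φ : A →ₗ[ℂ] ℂ} (h : IsState φ)

include h

lemma pl_add {a b : A} (ha : a ∈ PLset φ) (hb : b ∈ PLset φ) : a + b ∈ PLset φ := by
  intro ε hε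
  obtain ⟨c, hc, hc'⟩ := ha (ε / 2) (by linarith)
  obtain ⟨d, hd, hd'⟩ := hb (ε / 2) (by linarith)
  refine ⟨c + d, ?_, ?_⟩
  · apply le_antisymm _ (nn_nonneg _)
    rw [star_add]
    refine (nn_add h.pos _ _).trans ?_
    rw [hc, hd, add_zero]
  · have e1 : a + b - φ (a + b) • 1 - (c + d) = (a - φ a • 1 - c) + (b - φ b • 1 - d) := by
      rw [map_add, add_smul]; abel
    rw [e1]
    calc _ ≤ nn φ (a - φ a • 1 - c) + nn φ (b - φ b • 1 - d) := nn_add h.pos _ _
      _ < ε := by linarith

lemma pl_smul {a : A} (k : ℂ) (ha : a ∈ PLset φ) : k • a ∈ PLset φ := by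
  intro ε hε
  have hpos : 0 < ‖k‖ + 1 := by positivity
  obtain ⟨c, hc, hc'⟩ := ha (ε / (‖k‖ + 1)) (by positivity)
  refine ⟨k • c, ?_, ?_⟩
  · rw [star_smul, nn_smul h.pos, hc, mul_zero]
  · have e1 : k • a - φ (k • a) • 1 - k • c = k • (a - φ a • 1 - c) := by
      rw [map_smul, smul_sub, smul_sub, smul_smul, smul_eq_mul]
    rw [e1, nn_smul h.pos]
    calc ‖k‖ * nn φ (a - φ a • 1 - c) ≤ (‖k‖ + 1) * nn φ (a - φ a • 1 - c) := by
          have := nn_nonneg (φ := φ) (a - φ a • 1 - c)
          nlinarith
      _ < (‖k‖ + 1) * (ε / (‖k‖ + 1)) := by gcongr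
      _ = ε := by field_simp

lemma pl_zero : (0 : A) ∈ PLset φ := by
  intro ε hε
  refine ⟨0, ?_, ?_⟩
  · rw [star_zero, nn_zero]
  · rw [map_zero, zero_smul, sub_zero, sub_zero, nn_zero]; exact hε

lemma pl_one : (1 : A) ∈ PLset φ := by
  intro ε hε
  refine ⟨0, ?_, ?_⟩
  · rw [star_zero, nn_zero]
  · rw [h.one, one_smul, sub_self, sub_zero, nn_zero]; exact hε

lemma pl_closure {a : A} (ha : a ∈ closure (PLset φ)) : a ∈ PLset φ := by
  intro ε hε
  obtain ⟨b, hb, hab⟩ := Metric.mem_closure_iff.mp ha (ε / 4) (by linarith)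
  obtain ⟨c, hc, hc'⟩ := hb (ε / 4) (by linarith)
  refine ⟨c, hc, ?_⟩
  have e1 : a - φ a • 1 - c = ((a - b) - φ (a - b) • 1) + (b - φ b • 1 - c) := by
    rw [map_sub, sub_smul]; abel
  rw [e1]
  have h1 : nn φ (a - b) ≤ ε / 4 := by
    refine (nn_le h _).trans ?_
    rw [← dist_eq_norm]
    exact hab.le
  calc nn φ (((a - b) - φ (a - b) • 1) + (b - φ b • 1 - c))
      ≤ nn φ ((a - b) - φ (a - b) • 1) + nn φ (b - φ b • 1 - c) := nn_add h.pos _ _
    _ ≤ nn φ (a - b) + nn φ (b - φ b • 1 - c) := by
        gcongr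
        exact nn_center h _
    _ < ε := by linarith

/-- in the centralizer of a pure-like state the state is multiplicative -/
theorem centralizer_of_pureLike (hp : PureLike φ) {x : A} (hx : InCentralizer φ x) :
    φ (star x * x) = star (φ x) * φ x := by
  -- the centred element
  obtain ⟨y, hy⟩ : ∃ y, y = x - φ x • (1 : A) := ⟨_, rfl⟩
  have hyc : InCentralizer φ y := by
    intro z
    rw [hy, sub_mul, mul_sub, smul_mul_assoc, mul_smul_comm, one_mul, mul_one, map_sub, map_sub,
      hx z]
  have hy0 : φ y = 0 := by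
    rw [hy, map_sub, map_smul, h.one, smul_eq_mul, mul_one, sub_self]
  have h1 : nn φ y ≤ 0 := by
    refine le_of_forall_pos_le_add fun ε hε => ?_
    rw [zero_add]
    by_contra hcon
    push Not at hcon
    obtain ⟨c, hc, hc'⟩ := hp y ε hε
    rw [hy0, zero_smul, sub_zero] at hc'
    have h2 : φ (star c * y) = 0 := by
      rw [← hyc (star c)]
      have h3 := cs_le' h.pos y (star c)
      rw [hc, mul_zero] at h3
      simpa using h3
    have h3 : φ (star y * y) = φ (star (y - c) * y) := by
      rw [star_sub, sub_mul, map_sub, h2, sub_zero]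
    have h4 : ‖φ (star y * y)‖ ≤ nn φ (y - c) * nn φ y := by
      rw [h3]; exact cs_le h.pos _ _
    have h5 : ‖φ (star y * y)‖ = nn φ y ^ 2 := by
      rw [← nn_sq' h.pos, Complex.norm_real, Real.norm_eq_abs, abs_of_nonneg (by positivity)]
    rw [h5] at h4
    nlinarith
  have h2 : φ (star y * y) = 0 := by
    have h3 : nn φ y = 0 := le_antisymm h1 (nn_nonneg _)
    rw [← nn_sq' h.pos, h3]
    simp
  have h3 : star y * y = star x * x - φ x • star x - star (φ x) • x
      + (star (φ x) * φ x) • 1 := by
    rw [hy, star_sub, star_smul, star_one, sub_mul, mul_sub, mul_sub]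
    simp only [mul_smul_comm, smul_mul_assoc, mul_one, one_mul, smul_smul]
    rw [mul_comm (φ x)]
    abel
  rw [h3, map_add, map_sub, map_sub, map_smul, map_smul, map_smul, h.one, st_star h.pos] at h2
  simp only [smul_eq_mul] at h2
  linear_combination h2

end PL

section FP

variable {J : Type} {D : J → Type} [∀ j, CStarAlgebra (D j)]
  {t : ∀ j, D j →ₗ[ℂ] ℂ} {A : Type} [CStarAlgebra A] {φ : A →ₗ[ℂ] ℂ}
  {e : ∀ j, D j →⋆ₐ[ℂ] A} (h : IsReducedFreeProd D t φ e)

include h

lemma ev_mem_PLset (hp : ∀ j, PureLike (t j)) {w : List (Σ j, D j)} (hw : Red t w) :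
    ev e w ∈ PLset φ := by
  cases w with
  | nil => exact pl_one h.state
  | cons z w =>
    obtain ⟨j, a⟩ := z
    intro ε hε
    have h0 : φ (ev e (⟨j, a⟩ :: w)) = 0 := phi_ev h hw (by simp)
    have ha : t j a = 0 := hw.head
    have hpos : 0 < nn φ (ev e w) + 1 := by
      have := nn_nonneg (φ := φ) (ev e w)
      linarith
    obtain ⟨c, hc, hc'⟩ := hp j a (ε / (nn φ (ev e w) + 1)) (by positivity)
    rw [ha, zero_smul, sub_zero] at hc'
    refine ⟨e j c * ev e w, ?_, ?_⟩
    · apply le_antisymm _ (nn_nonneg _)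
      rw [star_mul, ← map_star]
      refine (nn_mul h.state.pos _ _).trans ?_
      have h1 : nn φ (e j (star c)) = 0 := by
        have := nn_cons h (red_nil (t := t)) (j := j) (by intro z hz; simp at hz) (star c)
        rw [ev_nil, mul_one, hc, zero_mul] at this
        exact this
      rw [h1, mul_zero]
    · rw [h0, zero_smul, sub_zero, ev_cons]
      have h1 : e j a * ev e w - e j c * ev e w = e j (a - c) * ev e w := by
        rw [map_sub, sub_mul]
      rw [h1, nn_cons h hw.tail hw.notHead]
      calc nn (t j) (a - c) * nn φ (ev e w) ≤ nn (t j) (a - c) * (nn φ (ev e w) + 1) := by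
            have := nn_nonneg (φ := t j) (a - c)
            nlinarith
        _ < ε / (nn φ (ev e w) + 1) * (nn φ (ev e w) + 1) := by gcongr
        _ = ε := by field_simp

/-- The free product of pure-like states is pure-like. -/
theorem pureLike_free (hp : ∀ j, PureLike (t j)) : PureLike φ := by
  intro a
  have h1 : (WS t e : Set A) ⊆ PLset φ := by
    intro x hx
    have hx' : x ∈ WS t e := hx
    clear hx
    rw [WS] at hx'
    induction hx' using Submodule.span_induction with
    | mem x hx =>
      obtain ⟨w, hw, rfl⟩ := hx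
      exact ev_mem_PLset h hp hw
    | zero => exact pl_zero h.state
    | add x y _ _ h1 h2 => exact pl_add h.state h1 h2
    | smul c x _ h1 => exact pl_smul h.state c h1
  exact pl_closure h.state (closure_mono h1 (mem_closure_WS h a))

lemma phi_left {j : J} {b : D j} (hb : t j b = 0) {w : List (Σ j, D j)} (hw : Red t w)
    (hne : ∀ a, w ≠ [⟨j, a⟩]) : φ (e j b * ev e w) = 0 := by
  cases w with
  | nil => rw [ev_nil, mul_one, h.marginal, hb]
  | cons z w =>
    obtain ⟨i, a⟩ := z
    by_cases hij : i = j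
    · subst hij
      have hw0 : w ≠ [] := fun hw0 => hne a (by rw [hw0])
      have h1 : e i b * ev e (⟨i, a⟩ :: w) = t i (b * a) • ev e w
          + ev e (⟨i, ctr t i (b * a)⟩ :: w) := by
        rw [ev_cons, ev_cons, ← mul_assoc, ← map_mul, e_ctr (t := t) i (b * a), add_mul,
          smul_mul_assoc, one_mul]
      rw [h1, map_add, map_smul, phi_ev h hw.tail hw0, smul_zero, zero_add]
      exact phi_ev h (hw.tail.cons (t_ctr (t_state h) i _) hw.notHead) (by simp)
    · have : e j b * ev e (⟨i, a⟩ :: w) = ev e (⟨j, b⟩ :: ⟨i, a⟩ :: w) := by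
        rw [ev_cons ⟨j, b⟩]
      rw [this]
      refine phi_ev h (hw.cons hb ?_) (by simp)
      intro y hy
      simp only [List.head?_cons, Option.mem_def, Option.some.injEq] at hy
      subst hy
      exact hij

lemma sw_singleton {j : J} {w : List (Σ j, D j)} {a : D j} (hw : sw w = [⟨j, a⟩]) :
    w = [⟨j, star a⟩] := by
  have h1 : sw (sw w) = w := by
    simp [sw, List.map_reverse, Function.comp_def]
  rw [← h1, hw]
  simp [sw]

lemma phi_comm_centred {j : J} {b : D j} (hb : t j b = 0) (hc : InCentralizer (t j) b)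
    {w : List (Σ j, D j)} (hw : Red t w) : φ (e j b * ev e w) = φ (ev e w * e j b) := by
  by_cases hw1 : ∃ a, w = [⟨j, a⟩]
  · obtain ⟨a, rfl⟩ := hw1
    rw [ev_cons, ev_nil, mul_one, ← map_mul, ← map_mul, h.marginal, h.marginal, hc]
  · push Not at hw1
    rw [phi_left h hb hw hw1]
    have h2 : φ (e j (star b) * ev e (sw w)) = 0 := by
      refine phi_left h ?_ (hw.sw (t_state h)) ?_
      · rw [st_star (t_state h j).pos, hb, star_zero]
      · intro a ha
        exact hw1 _ (sw_singleton h ha)
    have h3 : φ (star (ev e w * e j b)) = 0 := by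
      rw [star_mul, star_ev, ← map_star]
      exact h2
    rw [st_star h.state.pos, star_eq_zero] at h3
    exact h3.symm

/-- The centralizer of a factor state is contained in the centralizer of the free product
state. -/
theorem centralizer_free {j : J} {b : D j} (hc : InCentralizer (t j) b) :
    InCentralizer φ (e j b) := by
  -- reduce to a centred element
  have hc' : InCentralizer (t j) (ctr t j b) := by
    intro x
    rw [ctr, sub_mul, mul_sub, smul_mul_assoc, mul_smul_comm, one_mul, mul_one, map_sub, map_sub,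
      hc x]
  have h1 : ∀ x ∈ WS t e, φ (e j (ctr t j b) * x) = φ (x * e j (ctr t j b)) := by
    intro x hx
    rw [WS] at hx
    induction hx using Submodule.span_induction with
    | mem x hx =>
      obtain ⟨w, hw, rfl⟩ := hx
      exact phi_comm_centred h (t_ctr (t_state h) j b) hc' hw
    | zero => rw [mul_zero, zero_mul]
    | add x y _ _ h1 h2 => rw [mul_add, add_mul, map_add, map_add, h1, h2]
    | smul c x _ h1 => rw [mul_smul_comm, smul_mul_assoc, map_smul, map_smul, h1]
  have hcont := st_continuous h.state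
  have h2 : ∀ x, φ (e j (ctr t j b) * x) = φ (x * e j (ctr t j b)) := by
    intro x
    have hcl : IsClosed {x : A | φ (e j (ctr t j b) * x) = φ (x * e j (ctr t j b))} :=
      isClosed_eq (by fun_prop) (by fun_prop)
    exact hcl.closure_subset_iff.mpr h1 (mem_closure_WS h x)
  intro x
  rw [e_ctr (t := t) j b, add_mul, mul_add, smul_mul_assoc, mul_smul_comm, one_mul, mul_one,
    map_add, map_add, h2]

end FP

end Pool.Agent.V11109.Free
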