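import Mathlib

/-!
# States as linear functionals; the seminorm of a state
-/

set_option autoImplicit false
set_option linter.style.haveILetI false

open scoped ComplexOrder InnerProductSpace

namespace Pool.Agent.V11109.Free

/-- A state on a unital C*-algebra: a positive linear functional with value one at the unit. -/
structure IsState {A : Type} [CStarAlgebra A] (φ : A →ₗ[ℂ] ℂ) : Prop where
  one : φ 1 = 1
  pos : ∀ x, 0 ≤ φ (star x * x)

variable {A : Type} [CStarAlgebra A] {φ : A →ₗ[ℂ] ℂ} (h : ∀ x, 0 ≤ φ (star x * x))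

/-- a positive functional as a positive linear map -/
noncomputable def plm [PartialOrder A] [StarOrderedRing A] (φ : A →ₗ[ℂ] ℂ)
    (h : ∀ x, 0 ≤ φ (star x * x)) : A →ₚ[ℂ] ℂ :=
  PositiveLinearMap.mk₀ φ (fun x hx => by
    obtain ⟨y, rfl⟩ := CStarAlgebra.nonneg_iff_eq_star_mul_self.mp hx
    exact h y)

/-- the seminorm of a functional -/
noncomputable def nn (φ : A →ₗ[ℂ] ℂ) (x : A) : ℝ := Real.sqrt (φ (star x * x)).re

include h

lemma nn_eq [PartialOrder A] [StarOrderedRing A] (x : A) :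
    nn φ x = ‖(plm φ h).toPreGNS x‖ := by
  have h1 := (plm φ h).preGNS_norm_sq ((plm φ h).toPreGNS x)
  have h2 : ((‖(plm φ h).toPreGNS x‖ ^ 2 : ℝ) : ℂ) = φ (star x * x) := by
    push_cast
    exact h1
  rw [nn, ← h2, Complex.ofReal_re, Real.sqrt_sq (norm_nonneg _)]

lemma st_star (x : A) : φ (star x) = star (φ x) := by
  letI := CStarAlgebra.spectralOrder A
  haveI := CStarAlgebra.spectralOrderedRing A
  exact map_star (plm φ h) x

lemma sq_re (x : A) : ((φ (star x * x)).re : ℂ) = φ (star x * x) := by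
  have h1 := Complex.le_def.mp (h x)
  apply Complex.ext
  · simp
  · simpa using h1.2

lemma nn_sq (x : A) : nn φ x ^ 2 = (φ (star x * x)).re :=
  Real.sq_sqrt (Complex.le_def.mp (h x)).1

lemma nn_sq' (x : A) : ((nn φ x ^ 2 : ℝ) : ℂ) = φ (star x * x) := by
  rw [nn_sq h, sq_re h]

omit h in
lemma nn_nonneg (x : A) : 0 ≤ nn φ x := Real.sqrt_nonneg _

lemma nn_add (x y : A) : nn φ (x + y) ≤ nn φ x + nn φ y := by
  letI := CStarAlgebra.spectralOrder A
  haveI := CStarAlgebra.spectralOrderedRing A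
  rw [nn_eq h, nn_eq h, nn_eq h, map_add]
  exact norm_add_le _ _

lemma nn_sub (x y : A) : nn φ (x - y) ≤ nn φ x + nn φ y := by
  letI := CStarAlgebra.spectralOrder A
  haveI := CStarAlgebra.spectralOrderedRing A
  rw [nn_eq h, nn_eq h, nn_eq h, map_sub]
  exact norm_sub_le _ _

lemma nn_smul (c : ℂ) (x : A) : nn φ (c • x) = ‖c‖ * nn φ x := by
  letI := CStarAlgebra.spectralOrder A
  haveI := CStarAlgebra.spectralOrderedRing A
  rw [nn_eq h, nn_eq h, map_smul]
  exact norm_smul _ _

omit h in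
lemma nn_zero : nn φ (0 : A) = 0 := by simp [nn]

/-- Cauchy-Schwarz -/
lemma cs_le (x y : A) : ‖φ (star x * y)‖ ≤ nn φ x * nn φ y := by
  letI := CStarAlgebra.spectralOrder A
  haveI := CStarAlgebra.spectralOrderedRing A
  rw [nn_eq h, nn_eq h]
  exact norm_inner_le_norm (𝕜 := ℂ) ((plm φ h).toPreGNS x) ((plm φ h).toPreGNS y)

lemma cs_le' (x y : A) : ‖φ (x * y)‖ ≤ nn φ (star x) * nn φ y := by
  have := cs_le h (star x) y
  rwa [star_star] at this

lemma nn_mul (a x : A) : nn φ (a * x) ≤ ‖a‖ * nn φ x := by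
  letI := CStarAlgebra.spectralOrder A
  haveI := CStarAlgebra.spectralOrderedRing A
  have h1 : star (a * x) * (a * x) ≤ (‖a‖ ^ 2 : ℝ) • (star x * x) := by
    have h2 : star a * a ≤ algebraMap ℝ A (‖a‖ ^ 2) := CStarAlgebra.star_mul_le_algebraMap_norm_sq
    have h3 := star_left_conjugate_le_conjugate h2 x
    have h4 : star x * algebraMap ℝ A (‖a‖ ^ 2) * x = (‖a‖ ^ 2 : ℝ) • (star x * x) := by
      rw [Algebra.algebraMap_eq_smul_one, mul_smul_comm, mul_one, smul_mul_assoc]
    rw [h4] at h3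
    have h5 : star (a * x) * (a * x) = star x * (star a * a) * x := by
      rw [star_mul]; simp only [mul_assoc]
    rw [h5]
    exact h3
  have h6 : φ (star (a * x) * (a * x)) ≤ φ ((‖a‖ ^ 2 : ℝ) • (star x * x)) :=
    (plm φ h).monotone' h1
  have h7 : φ ((‖a‖ ^ 2 : ℝ) • (star x * x)) = ((‖a‖ ^ 2 : ℝ) : ℂ) * φ (star x * x) := by
    rw [← Complex.coe_smul, map_smul, smul_eq_mul]
  rw [h7] at h6
  have h8 := (Complex.le_def.mp h6).1
  rw [Complex.re_ofReal_mul] at h8
  rw [nn, nn]
  calc Real.sqrt (φ (star (a * x) * (a * x))).re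
      ≤ Real.sqrt (‖a‖ ^ 2 * (φ (star x * x)).re) := Real.sqrt_le_sqrt h8
    _ = ‖a‖ * Real.sqrt (φ (star x * x)).re := by
        rw [Real.sqrt_mul (by positivity), Real.sqrt_sq (norm_nonneg _)]

omit h

lemma nn_one (h1 : IsState φ) : nn φ 1 = 1 := by
  rw [nn, star_one, one_mul, h1.one]
  simp

lemma nn_le (h1 : IsState φ) (x : A) : nn φ x ≤ ‖x‖ := by
  have := nn_mul h1.pos x 1
  rwa [mul_one, nn_one h1, mul_one] at this

lemma norm_apply_le (h1 : IsState φ) (x : A) : ‖φ x‖ ≤ ‖x‖ := by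
  have := cs_le h1.pos 1 x
  rw [star_one, one_mul, nn_one h1, one_mul] at this
  exact this.trans (nn_le h1 x)

lemma norm_apply_le_nn (h1 : IsState φ) (x : A) : ‖φ x‖ ≤ nn φ x := by
  have := cs_le h1.pos 1 x
  rwa [star_one, one_mul, nn_one h1, one_mul] at this

lemma st_continuous (h1 : IsState φ) : Continuous φ :=
  AddMonoidHomClass.continuous_of_bound φ 1 (fun x => by rw [one_mul]; exact norm_apply_le h1 x)

lemma nn_continuous (h1 : IsState φ) : Continuous (nn φ) := by
  unfold nn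
  have := st_continuous h1
  fun_prop

/-- centring does not increase the seminorm -/
lemma nn_center (h1 : IsState φ) (x : A) : nn φ (x - φ x • 1) ≤ nn φ x := by
  have h2 : φ (star (x - φ x • 1) * (x - φ x • 1))
      = φ (star x * x) - star (φ x) * φ x := by
    have h3 : star (x - φ x • (1 : A)) * (x - φ x • 1)
        = star x * x - φ x • star x - star (φ x) • x + (star (φ x) * φ x) • 1 := by
      rw [star_sub, star_smul, star_one, sub_mul, mul_sub, mul_sub]
      simp only [mul_smul_comm, smul_mul_assoc, mul_one, one_mul, smul_smul]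
      rw [mul_comm (φ x)]
      abel
    rw [h3, map_add, map_sub, map_sub, map_smul, map_smul, map_smul, h1.one, st_star h1.pos]
    simp only [smul_eq_mul]
    ring
  unfold nn
  apply Real.sqrt_le_sqrt
  rw [h2, Complex.sub_re]
  have h4 : 0 ≤ (star (φ x) * φ x).re := by
    have : star (φ x) * φ x = ((‖φ x‖ ^ 2 : ℝ) : ℂ) := by
      rw [Complex.star_def, Complex.conj_mul']
      push_cast
      rfl
    rw [this, Complex.ofReal_re]
    positivity
  linarith

end Pool.Agent.V11109.Free
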