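import Pool.Agent.V11109.Free.Two
import Pool.Agent.V11109.Conj.Final

/-!
# The vacuum state is pure-like; states with a nontrivial centralizer
-/

set_option autoImplicit false
set_option linter.style.haveILetI false
set_option linter.unusedSectionVars false

open scoped ComplexOrder InnerProductSpace

namespace Pool.Agent.V11109.Free

open Pool.Agent.V11109.Fock Pool.Agent.V11109.PureExt Pool.Agent.V11109.Conj

section Cuntz

variable {C : Type} [CStarAlgebra C] {s : ℕ → C} {σ : C →ₗ[ℂ] ℂ}

/-- a state on an algebra generated by isometries which vanishes on the range projections is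
pure-like -/
theorem pureLike_of_cuntz (hd : ∀ x : C, x ∈ closure (monSpan s : Set C)) (hσ : IsState σ)
    (h0 : ∀ k, σ (s k * star (s k)) = 0) : PureLike σ := by
  have hs0 : ∀ k, nn σ (star (s k)) = 0 := by
    intro k
    have : nn σ (star (s k)) ^ 2 = 0 := by
      rw [nn_sq hσ.pos, star_star, h0]; simp
    exact pow_eq_zero_iff (two_ne_zero) |>.mp this
  have hstar : ∀ c : C, nn σ (star c) = 0 → σ c = 0 := by
    intro c hc
    have := cs_le' hσ.pos c 1
    rw [hc, zero_mul, mul_one] at this
    simpa using this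
  have hnn : ∀ c : C, nn σ c = 0 → σ c = 0 := by
    intro c hc
    have := norm_apply_le_nn hσ c
    rw [hc] at this
    simpa using this
  have h1 : (monSpan s : Set C) ⊆ PLset σ := by
    intro x hx
    have hx' : x ∈ monSpan s := hx
    clear hx
    rw [monSpan] at hx'
    induction hx' using Submodule.span_induction with
    | mem x hx =>
      obtain ⟨v, w, rfl⟩ := hx
      intro ε hε
      cases w with
      | cons k w =>
        have e1 : nn σ (mon s v (k :: w)) = 0 := by
          apply le_antisymm _ (nn_nonneg _)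
          rw [mon, Fock.sw_cons, star_mul, ← mul_assoc]
          refine (nn_mul hσ.pos _ _).trans ?_
          rw [hs0, mul_zero]
        refine ⟨0, by rw [star_zero, nn_zero], ?_⟩
        rw [hnn _ e1, zero_smul, sub_zero, sub_zero, e1]
        exact hε
      | nil =>
        cases v with
        | nil =>
          refine ⟨0, by rw [star_zero, nn_zero], ?_⟩
          rw [mon_nil, hσ.one, one_smul, sub_self, sub_zero, nn_zero]
          exact hε
        | cons k v =>
          have e1 : nn σ (star (mon s (k :: v) [])) = 0 := by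
            apply le_antisymm _ (nn_nonneg _)
            rw [mon, Fock.sw_cons, Fock.sw_nil, star_one, mul_one, star_mul]
            refine (nn_mul hσ.pos _ _).trans ?_
            rw [hs0, mul_zero]
          refine ⟨mon s (k :: v) [], e1, ?_⟩
          rw [hstar _ e1, zero_smul, sub_zero, sub_self, nn_zero]
          exact hε
    | zero => exact pl_zero hσ
    | add x y _ _ h1 h2 => exact pl_add hσ h1 h2
    | smul c x _ h1 => exact pl_smul hσ c h1
  intro a
  exact pl_closure hσ (closure_mono h1 (hd a))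

end Cuntz

/-- the vacuum state -/
noncomputable def vacL : O ℕ →ₗ[ℂ] ℂ := (vac ℕ).toLinearMap

lemma vacL_state : IsState vacL := ⟨vac_one, vac_mem.1⟩

lemma vacL_S (k : ℕ) : vacL (S k * star (S k)) = 0 := by
  have := vac_mon_left k [] [k]
  rw [show mon S [k] [k] = S k * star (S k) by simp [mon]] at this
  exact this

/-- a mixture of two vector states -/
noncomputable def mixL : O ℕ →ₗ[ℂ] ℂ := (mu (vac ℕ) (S 0) (S 1)).toLinearMap

lemma mixL_apply (x : O ℕ) : mixL x =
    1 / 2 * (vac ℕ (star (S 0) * x * S 0) + vac ℕ (star (S 1) * x * S 1)) := rfl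

lemma mixL_state : IsState mixL := by
  refine ⟨?_, (mu_mem vac_mem vac_one (S_cuntz.iso 0) (S_cuntz.iso 1)).1⟩
  rw [mixL_apply, mul_one, mul_one, S_cuntz.iso, S_cuntz.iso, vac_one]
  norm_num

/-- the projection in the centralizer -/
noncomputable def pp : O ℕ := S 0 * star (S 0)

lemma star_pp : star pp = pp := by rw [pp, star_mul, star_star]

lemma pp_S0 : pp * S 0 = S 0 := by rw [pp, mul_assoc, S_cuntz.iso, mul_one]

lemma pp_S1 : pp * S 1 = 0 := by rw [pp, mul_assoc, S_cuntz.orth 0 1 (by norm_num), mul_zero]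

lemma S0_pp : star (S 0) * pp = star (S 0) := by
  have := congrArg star pp_S0
  rwa [star_mul, star_pp] at this

lemma S1_pp : star (S 1) * pp = 0 := by
  have := congrArg star pp_S1
  rwa [star_mul, star_pp, star_zero] at this

lemma pp_idem : pp * pp = pp := by
  calc pp * pp = pp * S 0 * star (S 0) := by rw [mul_assoc]; rfl
    _ = pp := by rw [pp_S0]; rfl

lemma mixL_pp : mixL pp = 1 / 2 := by
  rw [mixL_apply, S0_pp, S1_pp, S_cuntz.iso, zero_mul, vac_one, map_zero]
  norm_num

lemma pp_centralizer : InCentralizer mixL pp := by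
  intro x
  rw [mixL_apply, mixL_apply]
  have e1 : star (S 0) * (pp * x) * S 0 = star (S 0) * x * S 0 := by
    rw [← mul_assoc, S0_pp]
  have e2 : star (S 1) * (pp * x) * S 1 = 0 := by
    rw [← mul_assoc, S1_pp, zero_mul, zero_mul]
  have e3 : star (S 0) * (x * pp) * S 0 = star (S 0) * x * S 0 := by
    rw [mul_assoc, mul_assoc x, pp_S0, ← mul_assoc]
  have e4 : star (S 1) * (x * pp) * S 1 = 0 := by
    rw [mul_assoc, mul_assoc x, pp_S1, mul_zero, mul_zero]
  rw [e1, e2, e3, e4]

section NoIso

variable {D E : Type} [CStarAlgebra D] [CStarAlgebra E] {ρ : D →ₗ[ℂ] ℂ} {θ : E →ₗ[ℂ] ℂ}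

/-- no state preserving isomorphism from a state with a nontrivial centralizer to a pure-like
state -/
theorem no_iso (hρ : IsState ρ) (hp : PureLike ρ) {b : E} (hb : InCentralizer θ b)
    (hne : θ (star b * b) ≠ star (θ b) * θ b) (Φ : E ≃⋆ₐ[ℂ] D) : ¬ ∀ x, ρ (Φ x) = θ x := by
  intro hΦ
  apply hne
  have h1 : InCentralizer ρ (Φ b) := by
    intro y
    have e1 : Φ b * y = Φ (b * Φ.symm y) := by rw [map_mul, Φ.apply_symm_apply]
    have e2 : y * Φ b = Φ (Φ.symm y * b) := by rw [map_mul, Φ.apply_symm_apply]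
    rw [e1, e2, hΦ, hΦ, hb]
  have h2 := centralizer_of_pureLike hρ hp h1
  rw [← map_star, ← map_mul, hΦ, hΦ] at h2
  exact h2

theorem no_iso' (hρ : IsState ρ) (hp : PureLike ρ) {b : E} (hb : InCentralizer θ b)
    (hne : θ (star b * b) ≠ star (θ b) * θ b) (Φ : D ≃⋆ₐ[ℂ] E) : ¬ ∀ x, θ (Φ x) = ρ x := by
  intro hΦ
  apply no_iso hρ hp hb hne Φ.symm
  intro x
  rw [← hΦ, Φ.apply_symm_apply]

end NoIso

section Universal

variable {A : Type} [CStarAlgebra A] {s : ℕ → A} (hs : IsCuntzInfty s)

include hs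

lemma exists_toFock : ∃ ι : A →⋆ₐ[ℂ] O ℕ, ∀ i, ι (s i) = S i := hs.lift (O ℕ) S S_cuntz

lemma dense_monSpan (x : A) : x ∈ closure (monSpan s : Set A) := by
  exact mem_closure_of_generates (StarAlgHom.id ℂ A) hs.family hs.generates (fun _ => rfl) x

omit hs in
lemma state_comp {B : Type} [CStarAlgebra B] {φ : B →ₗ[ℂ] ℂ} (hφ : IsState φ)
    (ι : A →⋆ₐ[ℂ] B) : IsState (φ.comp ι.toAlgHom.toLinearMap) where
  one := by
    show φ (ι 1) = 1
    rw [map_one, hφ.one]
  pos x := by
    show 0 ≤ φ (ι (star x * x))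
    rw [map_mul, map_star]
    exact hφ.pos _

/-- There are a pure-like state and a state with a nontrivial centralizer on the Cuntz
algebra. -/
theorem exists_states : ∃ ω₁ ω₂ : A →ₗ[ℂ] ℂ, IsState ω₁ ∧ IsState ω₂ ∧ PureLike ω₁ ∧
    ∃ b : A, InCentralizer ω₂ b ∧ ω₂ (star b * b) ≠ star (ω₂ b) * ω₂ b := by
  obtain ⟨ι, hι⟩ := exists_toFock hs
  refine ⟨vacL.comp ι.toAlgHom.toLinearMap, mixL.comp ι.toAlgHom.toLinearMap,
    state_comp vacL_state ι, state_comp mixL_state ι, ?_, s 0 * star (s 0), ?_, ?_⟩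
  · apply pureLike_of_cuntz (dense_monSpan hs) (state_comp vacL_state ι)
    intro k
    show vacL (ι (s k * star (s k))) = 0
    rw [map_mul, map_star, hι, vacL_S]
  · intro x
    show mixL (ι (s 0 * star (s 0) * x)) = mixL (ι (x * (s 0 * star (s 0))))
    have e1 : ι (s 0 * star (s 0)) = pp := by rw [map_mul, map_star, hι, pp]
    rw [map_mul ι, map_mul ι x, e1]
    exact pp_centralizer _
  · have e1 : ι (s 0 * star (s 0)) = pp := by rw [map_mul, map_star, hι, pp]
    show mixL (ι (star (s 0 * star (s 0)) * (s 0 * star (s 0))))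
      ≠ star (mixL (ι (s 0 * star (s 0)))) * mixL (ι (s 0 * star (s 0)))
    rw [map_mul ι, map_star ι, e1, star_pp, pp_idem, mixL_pp]
    norm_num

end Universal

end Pool.Agent.V11109.Free
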