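import Pool.Agent.V11109.Free.State

/-!
# Reduced free products: definitions and words
-/

set_option autoImplicit false
set_option linter.style.haveILetI false
set_option linter.unusedSectionVars false

open scoped ComplexOrder InnerProductSpace

namespace Pool.Agent.V11109.Free

/-- `(A, φ)` with the embeddings `e j : D j → A` is the reduced free product (Avitzour, Voiculescu)
of the `(D j, t j)`: `φ` is a state which restricts to `t j` on `D j`, the subalgebras are free with
respect to `φ` (alternating products of centred elements have expectation zero), they generate `A`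
as a C*-algebra, and the GNS representation of `φ` is faithful. -/
structure IsReducedFreeProd {J : Type} (D : J → Type) [∀ j, CStarAlgebra (D j)]
    (t : ∀ j, D j →ₗ[ℂ] ℂ) {A : Type} [CStarAlgebra A] (φ : A →ₗ[ℂ] ℂ)
    (e : ∀ j, D j →⋆ₐ[ℂ] A) : Prop where
  state : IsState φ
  marginal : ∀ j d, φ (e j d) = t j d
  free : ∀ w : List (Σ j, D j), w ≠ [] → w.IsChain (fun a b => a.1 ≠ b.1) →
    (∀ z ∈ w, t z.1 z.2 = 0) → φ ((w.map fun z => e z.1 z.2).prod) = 0
  generating : (StarAlgebra.adjoin ℂ (⋃ j, Set.range (e j))).topologicalClosure =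
    (⊤ : StarSubalgebra ℂ A)
  gns_faithful : ∀ a, (∀ x, φ (star (a * x) * (a * x)) = 0) → a = 0

section

variable {J : Type} {D : J → Type} [∀ j, CStarAlgebra (D j)]
  {t : ∀ j, D j →ₗ[ℂ] ℂ} {A : Type} [CStarAlgebra A] {φ : A →ₗ[ℂ] ℂ}
  {e : ∀ j, D j →⋆ₐ[ℂ] A}

/-- value of a word -/
def ev (e : ∀ j, D j →⋆ₐ[ℂ] A) (w : List (Σ j, D j)) : A := (w.map fun z => e z.1 z.2).prod

@[simp] lemma ev_nil : ev e [] = 1 := rfl
@[simp] lemma ev_cons (z : Σ j, D j) (w : List (Σ j, D j)) :
    ev e (z :: w) = e z.1 z.2 * ev e w := by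
  simp [ev]

lemma ev_append (v w : List (Σ j, D j)) : ev e (v ++ w) = ev e v * ev e w := by
  simp [ev]

/-- adjoint word -/
def sw (w : List (Σ j, D j)) : List (Σ j, D j) := (w.map fun z => ⟨z.1, star z.2⟩).reverse

lemma star_ev (w : List (Σ j, D j)) : star (ev e w) = ev e (sw w) := by
  induction w with
  | nil => simp [sw]
  | cons z w ih =>
    rw [ev_cons, star_mul, ih, ← map_star]
    simp [sw, ev_append]

/-- centred alternating words -/
def Red (t : ∀ j, D j →ₗ[ℂ] ℂ) (w : List (Σ j, D j)) : Prop :=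
  w.IsChain (fun a b => a.1 ≠ b.1) ∧ ∀ z ∈ w, t z.1 z.2 = 0

lemma red_nil : Red t [] := ⟨List.isChain_nil, by simp⟩

lemma Red.tail {z : Σ j, D j} {w : List (Σ j, D j)} (h : Red t (z :: w)) : Red t w :=
  ⟨h.1.tail, fun y hy => h.2 y (List.mem_cons_of_mem _ hy)⟩

lemma Red.head {z : Σ j, D j} {w : List (Σ j, D j)} (h : Red t (z :: w)) : t z.1 z.2 = 0 :=
  h.2 z List.mem_cons_self

/-- the first letter of `w` is not from `j` -/
def NotHead (j : J) (w : List (Σ j, D j)) : Prop := ∀ z ∈ w.head?, z.1 ≠ j

lemma Red.notHead {z : Σ j, D j} {w : List (Σ j, D j)} (h : Red t (z :: w)) :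
    NotHead z.1 w := by
  intro y hy
  cases w with
  | nil => simp at hy
  | cons x w =>
    simp only [List.head?_cons, Option.mem_def, Option.some.injEq] at hy
    subst hy
    have := h.1
    rw [List.isChain_cons_cons] at this
    exact this.1.symm

lemma Red.cons {j : J} {d : D j} {w : List (Σ j, D j)} (h : Red t w) (hd : t j d = 0)
    (hj : NotHead j w) : Red t (⟨j, d⟩ :: w) := by
  refine ⟨?_, ?_⟩
  · cases w with
    | nil => exact List.isChain_singleton _
    | cons x w =>
      rw [List.isChain_cons_cons]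
      exact ⟨(hj x (by simp)).symm, h.1⟩
  · intro z hz
    rcases List.mem_cons.mp hz with rfl | hz
    · exact hd
    · exact h.2 z hz

lemma Red.sw (ht : ∀ j, IsState (t j)) {w : List (Σ j, D j)} (h : Red t w) :
    Red t (sw w) := by
  refine ⟨?_, ?_⟩
  · rw [Free.sw, List.isChain_reverse, List.isChain_map]
    refine h.1.imp ?_
    intro a b hab
    exact hab.symm
  · intro z hz
    simp only [Free.sw, List.mem_reverse, List.mem_map] at hz
    obtain ⟨y, hy, rfl⟩ := hz
    show t y.1 (star y.2) = 0
    rw [st_star (ht _).pos, h.2 y hy, star_zero]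

/-- the span of the centred alternating words -/
noncomputable def WS (t : ∀ j, D j →ₗ[ℂ] ℂ) (e : ∀ j, D j →⋆ₐ[ℂ] A) : Submodule ℂ A :=
  Submodule.span ℂ {x | ∃ w, Red t w ∧ x = ev e w}

lemma one_mem_WS : (1 : A) ∈ WS t e := Submodule.subset_span ⟨[], red_nil, rfl⟩

/-- centred part -/
noncomputable def ctr (t : ∀ j, D j →ₗ[ℂ] ℂ) (j : J) (a : D j) : D j := a - t j a • 1

lemma t_ctr (ht : ∀ j, IsState (t j)) (j : J) (a : D j) : t j (ctr t j a) = 0 := by
  rw [ctr, map_sub, map_smul, (ht j).one, smul_eq_mul, mul_one, sub_self]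

lemma e_ctr (j : J) (a : D j) : e j a = t j a • (1 : A) + e j (ctr t j a) := by
  rw [ctr, map_sub, map_smul, map_one]
  abel

lemma mul_mem_WS (ht : ∀ j, IsState (t j)) (j : J) (a : D j) {x : A} (hx : x ∈ WS t e) :
    e j a * x ∈ WS t e := by
  rw [WS] at hx
  induction hx using Submodule.span_induction with
  | mem x hx =>
    obtain ⟨w, hw, rfl⟩ := hx
    cases w with
    | nil =>
      rw [e_ctr (t := t) j a, add_mul, smul_mul_assoc, one_mul]
      refine Submodule.add_mem _ (Submodule.smul_mem _ _ one_mem_WS) (Submodule.subset_span ?_)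
      exact ⟨[⟨j, ctr t j a⟩], red_nil.cons (t_ctr ht j a) (by intro z hz; simp at hz), by simp⟩
    | cons z w =>
      obtain ⟨i, b⟩ := z
      by_cases hij : i = j
      · subst hij
        have h1 : e i a * ev e (⟨i, b⟩ :: w) = t i (a * b) • ev e w
            + ev e (⟨i, ctr t i (a * b)⟩ :: w) := by
          rw [ev_cons, ev_cons, ← mul_assoc, ← map_mul, e_ctr (t := t) i (a * b), add_mul,
            smul_mul_assoc, one_mul]
        rw [h1]
        refine Submodule.add_mem _ (Submodule.smul_mem _ _ (Submodule.subset_span ?_))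
          (Submodule.subset_span ?_)
        · exact ⟨w, hw.tail, rfl⟩
        · exact ⟨_, hw.tail.cons (t_ctr ht i _) hw.notHead, rfl⟩
      · rw [e_ctr (t := t) j a, add_mul, smul_mul_assoc, one_mul]
        refine Submodule.add_mem _ (Submodule.smul_mem _ _ (Submodule.subset_span ?_))
          (Submodule.subset_span ?_)
        · exact ⟨_, hw, rfl⟩
        · refine ⟨⟨j, ctr t j a⟩ :: ⟨i, b⟩ :: w, hw.cons (t_ctr ht j a) ?_, by simp⟩
          intro y hy
          simp only [List.head?_cons, Option.mem_def, Option.some.injEq] at hy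
          subst hy
          exact hij
  | zero => rw [mul_zero]; exact Submodule.zero_mem _
  | add x y _ _ h1 h2 => rw [mul_add]; exact Submodule.add_mem _ h1 h2
  | smul c x _ h1 => rw [mul_smul_comm]; exact Submodule.smul_mem _ _ h1

lemma adjoin_mul_mem (ht : ∀ j, IsState (t j)) {x : A}
    (hx : x ∈ StarAlgebra.adjoin ℂ (⋃ j, Set.range (e j))) :
    (∀ y ∈ WS t e, x * y ∈ WS t e) ∧ ∀ y ∈ WS t e, star x * y ∈ WS t e := by
  induction hx using StarAlgebra.adjoin_induction with
  | mem x hx =>
    obtain ⟨j, a, rfl⟩ := Set.mem_iUnion.mp hx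
    refine ⟨fun y hy => mul_mem_WS ht j a hy, fun y hy => ?_⟩
    rw [← map_star]
    exact mul_mem_WS ht j _ hy
  | algebraMap r =>
    refine ⟨fun y hy => ?_, fun y hy => ?_⟩
    · rw [Algebra.algebraMap_eq_smul_one, smul_mul_assoc, one_mul]
      exact Submodule.smul_mem _ _ hy
    · rw [Algebra.algebraMap_eq_smul_one, star_smul, star_one, smul_mul_assoc, one_mul]
      exact Submodule.smul_mem _ _ hy
  | add x y _ _ h1 h2 =>
    refine ⟨fun z hz => ?_, fun z hz => ?_⟩
    · rw [add_mul]; exact Submodule.add_mem _ (h1.1 z hz) (h2.1 z hz)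
    · rw [star_add, add_mul]; exact Submodule.add_mem _ (h1.2 z hz) (h2.2 z hz)
  | mul x y _ _ h1 h2 =>
    refine ⟨fun z hz => ?_, fun z hz => ?_⟩
    · rw [mul_assoc]; exact h1.1 _ (h2.1 z hz)
    · rw [star_mul, mul_assoc]; exact h2.2 _ (h1.2 z hz)
  | star x _ h1 =>
    refine ⟨fun z hz => h1.2 z hz, fun z hz => ?_⟩
    rw [star_star]; exact h1.1 z hz

lemma adjoin_le_WS (ht : ∀ j, IsState (t j)) {x : A}
    (hx : x ∈ StarAlgebra.adjoin ℂ (⋃ j, Set.range (e j))) : x ∈ WS t e := by
  have := (adjoin_mul_mem ht hx).1 1 one_mem_WS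
  rwa [mul_one] at this

variable (h : IsReducedFreeProd D t φ e)

include h

lemma t_state (j : J) : IsState (t j) where
  one := by rw [← h.marginal, map_one, h.state.one]
  pos x := by rw [← h.marginal, map_mul, map_star]; exact h.state.pos _

lemma mem_closure_WS (x : A) : x ∈ closure (WS t e : Set A) := by
  have h1 : x ∈ (StarAlgebra.adjoin ℂ (⋃ j, Set.range (e j))).topologicalClosure := by
    rw [h.generating]; exact StarSubalgebra.mem_top
  rw [← SetLike.mem_coe, StarSubalgebra.topologicalClosure_coe] at h1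
  exact closure_mono (fun y hy => adjoin_le_WS (t_state h) hy) h1

lemma phi_ev {w : List (Σ j, D j)} (hw : Red t w) (hne : w ≠ []) : φ (ev e w) = 0 :=
  h.free w hne hw.1 hw.2

/-- the key computation with a free middle letter -/
lemma phi_mid {w : List (Σ j, D j)} (hw : Red t w) {j : J} (hj : NotHead j w) (d : D j) :
    φ (star (ev e w) * e j d * ev e w) = t j d * φ (star (ev e w) * ev e w) := by
  have h1 : Red t (⟨j, ctr t j d⟩ :: w) := hw.cons (t_ctr (t_state h) j d) hj
  have h2 : φ (star (ev e w) * e j (ctr t j d) * ev e w) = 0 := by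
    rw [star_ev, mul_assoc]
    have h3 : ev e (sw w) * (e j (ctr t j d) * ev e w) = ev e (sw w ++ (⟨j, ctr t j d⟩ :: w)) := by
      rw [ev_append, ev_cons]
    rw [h3]
    have h4 : Red t (sw w ++ (⟨j, ctr t j d⟩ :: w)) := by
      refine ⟨?_, ?_⟩
      · rw [List.isChain_append]
        refine ⟨(hw.sw (t_state h)).1, h1.1, ?_⟩
        intro x hx y hy
        simp only [List.head?_cons, Option.mem_def, Option.some.injEq] at hy
        subst hy
        rw [Free.sw, List.getLast?_reverse] at hx
        cases w with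
        | nil => simp at hx
        | cons z w =>
          simp only [List.map_cons, List.head?_cons, Option.mem_def, Option.some.injEq] at hx
          subst hx
          exact hj z (by simp)
      · intro z hz
        rcases List.mem_append.mp hz with hz | hz
        · exact (hw.sw (t_state h)).2 z hz
        · exact h1.2 z hz
    exact phi_ev h h4 (by simp)
  have h5 : star (ev e w) * e j d * ev e w = t j d • (star (ev e w) * ev e w)
      + star (ev e w) * e j (ctr t j d) * ev e w := by
    rw [e_ctr (t := t) j d, mul_add, add_mul, mul_smul_comm, smul_mul_assoc, mul_one]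
  rw [h5, map_add, h2, add_zero, map_smul, smul_eq_mul]

lemma nn_cons {w : List (Σ j, D j)} (hw : Red t w) {j : J} (hj : NotHead j w) (d : D j) :
    nn φ (e j d * ev e w) = nn (t j) d * nn φ (ev e w) := by
  have h1 : φ (star (e j d * ev e w) * (e j d * ev e w))
      = t j (star d * d) * φ (star (ev e w) * ev e w) := by
    rw [← phi_mid h hw hj]
    congr 1
    rw [star_mul, map_mul (e j), map_star]
    simp only [mul_assoc]
  rw [nn, h1, ← sq_re (t_state h j).pos d, ← sq_re h.state.pos (ev e w), ← Complex.ofReal_mul,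
    Complex.ofReal_re, nn, nn, Real.sqrt_mul]
  exact (Complex.le_def.mp ((t_state h j).pos d)).1

end

end Pool.Agent.V11109.Free
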